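import Pool.Agent.Lib.MP_9cfc0a_nt.SK.Defs

set_option autoImplicit false

/-! Shared definitions of the campaign SD (MP_9cfc0a: the excess of the variance controls the zeros).
`w = s - 1/2` for the zeros of `Lam`. -/

namespace Pool.Agent.SD

open Complex MeasureTheory
open Pool.Agent.SK

open scoped Classical in
/-- The good zeros of `Lam χ` with `|Im w| ≤ T`: on the line `Re w = 0` and simple. -/
noncomputable def GZ {r : ℕ} [NeZero r] (χ : DirichletCharacter ℂ r) (T : ℝ) : Finset ℂ :=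
  (Z χ T).filter (fun w => w.re = 0 ∧ mu χ w = 1)

/-- The sum of the weights `m` of the elements with imaginary part in `[u - h, u + h]`. -/
noncomputable def NW (F : Finset ℂ) (m : ℂ → ℝ) (h u : ℝ) : ℝ :=
  ∑ w ∈ F.filter (fun w => |w.im - u| ≤ h), m w

/-- The number of elements of a finite set of complex numbers with imaginary part in `[u - h, u + h]`. -/
noncomputable def NU (F : Finset ℂ) (h u : ℝ) : ℝ :=
  ((F.filter (fun w => |w.im - u| ≤ h)).card : ℝ)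

/-- The sum of `m/(1/4 + γ²)`. -/
noncomputable def gW (F : Finset ℂ) (m : ℂ → ℝ) : ℝ := ∑ w ∈ F, m w * (1 / (1 / 4 + w.im ^ 2))

/-- The sum of `1/(1/4 + γ²)`. -/
noncomputable def gF (F : Finset ℂ) : ℝ := ∑ w ∈ F, 1 / (1 / 4 + w.im ^ 2)

/-- The simple zeros of `L(s, χ)` on the line `Re s = 1/2` with `|Im s| ≤ T`. -/
def SZ {q : ℕ} [NeZero q] (χ : DirichletCharacter ℂ q) (T : ℝ) : Set ℂ :=
  {ρ : ℂ | ρ.re = 1 / 2 ∧ |ρ.im| ≤ T ∧ χ.LFunction ρ = 0 ∧ deriv χ.LFunction ρ ≠ 0}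

/-- The zeros of `L(s, χ)` in the strip `0 < Re s < 1` with `|Im s| ≤ T`. -/
def AZ {q : ℕ} [NeZero q] (χ : DirichletCharacter ℂ q) (T : ℝ) : Set ℂ :=
  {ρ : ℂ | 0 < ρ.re ∧ ρ.re < 1 ∧ |ρ.im| ≤ T ∧ χ.LFunction ρ = 0}

/-- The sum of `1/|ρ|²` over the simple zeros on the line with `|Im ρ| ≤ T`. -/
noncomputable def gL {q : ℕ} [NeZero q] (χ : DirichletCharacter ℂ q) (T : ℝ) : ℝ :=
  ∑ᶠ ρ ∈ SZ χ T, 1 / ‖ρ‖ ^ 2

/-- The sum of `m/(1/4 + γ²)` over all zeros in the strip with `|Im ρ| ≤ T`, `m` the multiplicity. -/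
noncomputable def aL {q : ℕ} [NeZero q] (χ : DirichletCharacter ℂ q) (T : ℝ) : ℝ :=
  ∑ᶠ ρ ∈ AZ χ T, (analyticOrderNatAt χ.LFunction ρ : ℝ) / (1 / 4 + ρ.im ^ 2)

end Pool.Agent.SD
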