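import Mathlib

set_option autoImplicit false

/-! Task VA: `q/φ(q) = O(log q)`. -/

namespace Pool.Agent.SD

/-- VA1. PROOF. `Finset.induction_on_max`: the largest element `p` of `P ∪ {p}` satisfies `p - 1 ≥ |P ∪ {p}|` (`P ∪ {p} ⊆ Finset.Icc 2 p`), so
`p/(p-1) ≤ (n+1)/n` with `n = |P ∪ {p}|`, and the product over `P` is `≤ n` by induction. -/
theorem prod_primes_le (P : Finset ℕ) (hP : ∀ p ∈ P, p.Prime) :
    ∏ p ∈ P, ((p : ℝ) / ((p : ℝ) - 1)) ≤ (P.card : ℝ) + 1 := by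
  revert hP
  refine Finset.induction_on_max P ?_ ?_
  · intro _
    simp
  · intro a s hmax ih hP
    have hns : a ∉ s := fun h => lt_irrefl a (hmax a h)
    have ha : a.Prime := hP a (Finset.mem_insert_self a s)
    have hs : ∀ p ∈ s, p.Prime := fun p hp => hP p (Finset.mem_insert_of_mem hp)
    have hsub : insert a s ⊆ Finset.Icc 2 a := by
      intro p hp
      rcases Finset.mem_insert.1 hp with h | h
      · rw [h]
        exact Finset.mem_Icc.2 ⟨ha.two_le, le_rfl⟩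
      · exact Finset.mem_Icc.2 ⟨(hs p h).two_le, (hmax p h).le⟩
    have hcard := Finset.card_le_card hsub
    rw [Finset.card_insert_of_notMem hns, Nat.card_Icc] at hcard
    have h2 : s.card + 2 ≤ a := by
      have := ha.two_le
      omega
    have h2' : (s.card : ℝ) + 2 ≤ (a : ℝ) := by exact_mod_cast h2
    rw [Finset.prod_insert hns, Finset.card_insert_of_notMem hns]
    push_cast
    have h0 : (0 : ℝ) ≤ (s.card : ℝ) := Nat.cast_nonneg _
    have h3 : (0 : ℝ) < (a : ℝ) - 1 := by linarith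
    have h4 : (a : ℝ) / ((a : ℝ) - 1) * ((s.card : ℝ) + 1) ≤ (s.card : ℝ) + 1 + 1 := by
      rw [div_mul_eq_mul_div, div_le_iff₀ h3]
      nlinarith
    refine le_trans (mul_le_mul_of_nonneg_left (ih hs) ?_) h4
    exact div_nonneg (Nat.cast_nonneg _) h3.le

/-- VA2. PROOF. `φ(q) = q ∏_{p | q} (1 - 1/p)` (`Nat.totient_eq_mul_prod_factors`, cast from `ℚ`), so `q = φ(q) ∏ p/(p-1) ≤ φ(q) (ω + 1)`, and
`2^ω ≤ ∏_{p | q} p ≤ q` gives `ω ≤ log q/log 2 ≤ 2 log q`. -/
theorem totient_log (q : ℕ) (hq : 1 ≤ q) : (q : ℝ) ≤ (1 + 2 * Real.log q) * (q.totient : ℝ) := by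
  have hq0 : q ≠ 0 := by omega
  have h1 : ((q.totient : ℚ) : ℝ) = (((q : ℚ) * ∏ p ∈ q.primeFactors, (1 - (p : ℚ)⁻¹) : ℚ) : ℝ) := by
    rw [Nat.totient_eq_mul_prod_factors]
  push_cast at h1
  have h2 : (∏ p ∈ q.primeFactors, (1 - (p : ℝ)⁻¹)) * ∏ p ∈ q.primeFactors, ((p : ℝ) / ((p : ℝ) - 1)) = 1 := by
    rw [← Finset.prod_mul_distrib]
    refine Finset.prod_eq_one fun p hp => ?_
    have hp2 : (2 : ℝ) ≤ (p : ℝ) := by exact_mod_cast (Nat.prime_of_mem_primeFactors hp).two_le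
    have h3 : (p : ℝ) ≠ 0 := by linarith
    have h4 : (p : ℝ) - 1 ≠ 0 := by linarith
    field_simp
  have h3 : (q : ℝ) = (q.totient : ℝ) * ∏ p ∈ q.primeFactors, ((p : ℝ) / ((p : ℝ) - 1)) := by
    rw [h1, mul_assoc, h2, mul_one]
  have h4 := prod_primes_le q.primeFactors fun p hp => Nat.prime_of_mem_primeFactors hp
  have h5 : (2 : ℝ) ^ q.primeFactors.card ≤ (q : ℝ) := by
    have h6 : 2 ^ q.primeFactors.card ≤ ∏ p ∈ q.primeFactors, p := by
      rw [← Finset.prod_const]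
      exact Finset.prod_le_prod (fun _ _ => Nat.zero_le _) fun p hp => (Nat.prime_of_mem_primeFactors hp).two_le
    have h7 : ∏ p ∈ q.primeFactors, p ≤ q := Nat.le_of_dvd (by omega) (Nat.prod_primeFactors_dvd q)
    exact_mod_cast h6.trans h7
  have h6 : (q.primeFactors.card : ℝ) * Real.log 2 ≤ Real.log q := by
    rw [← Real.log_pow]
    exact Real.log_le_log (by positivity) h5
  have h7 : (q.primeFactors.card : ℝ) ≤ 2 * Real.log q := by
    have h8 : (1 : ℝ) / 2 ≤ Real.log 2 := by linarith [Real.log_two_gt_d9]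
    have h9 : (0 : ℝ) ≤ (q.primeFactors.card : ℝ) := Nat.cast_nonneg _
    nlinarith
  have h8 : (q : ℝ) ≤ (q.totient : ℝ) * ((q.primeFactors.card : ℝ) + 1) :=
    h3.le.trans (mul_le_mul_of_nonneg_left h4 (Nat.cast_nonneg _))
  refine h8.trans ?_
  rw [mul_comm]
  exact mul_le_mul_of_nonneg_right (by linarith) (Nat.cast_nonneg _)

end Pool.Agent.SD
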