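import Pool.Agent.Lib.MP_9cfc0a_nt.Mg.G011
import Pool.Agent.Lib.MP_9cfc0a_nt.Mg.G018

set_option autoImplicit false

/-! Task LE: the number of zeros in a band, two-sided. -/

namespace Pool.Agent.SD

open Complex MeasureTheory
open Pool.Agent.SK
open Pool.Agent.SO (prim NN)

/-- LE1. PROOF. `‖FI W a b z‖ ≤ ∫_ℝ ‖gz W x z‖ dx = exp (W² (Re z)²/2)` (see `norm_gz` and the proof of `gz_side` in SK/C3A.lean; the Gaussian
integral is `√(2π)/W`), and `W² (Re z)² ≤ |Re z| ≤ 1`, `exp (x/2) ≤ 1 + x` for `0 ≤ x ≤ 1`. -/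
theorem FI_norm_le (W a b : ℝ) (hW : 1 ≤ W) (hab : a ≤ b) (z : ℂ) (hz : W ^ 2 * |z.re| ≤ 1) :
    ‖FI W a b z‖ ≤ 1 + |z.re| := by
  have hW0 : 0 < W := by linarith
  have hint := (gz_full W hW0 z).1.norm
  have h1 : ‖FI W a b z‖ ≤ ∫ x in a..b, ‖gz W x z‖ := by
    unfold FI
    exact intervalIntegral.norm_integral_le_integral_norm hab
  have h2 : ∫ x in a..b, ‖gz W x z‖ ≤ ∫ x : ℝ, ‖gz W x z‖ := by
    rw [intervalIntegral.integral_of_le hab]
    exact setIntegral_le_integral hint (Filter.Eventually.of_forall fun x => norm_nonneg _)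
  have hn : ∀ x : ℝ, ‖gz W x z‖ = (W / Real.sqrt (2 * Real.pi) * Real.exp (W ^ 2 / 2 * z.re ^ 2)) *
      Real.exp (-(W ^ 2 / 2) * (z.im - x) ^ 2) := by
    intro x
    rw [norm_gz W x hW0.le z, mul_assoc, ← Real.exp_add]
    congr 2
    ring
  have h3 : ∫ x : ℝ, ‖gz W x z‖ = Real.exp (W ^ 2 / 2 * z.re ^ 2) := by
    simp_rw [hn]
    rw [integral_const_mul]
    have h9 : (∫ x : ℝ, Real.exp (-(W ^ 2 / 2) * (z.im - x) ^ 2)) = ∫ y : ℝ, Real.exp (-(W ^ 2 / 2) * y ^ 2) :=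
      integral_sub_left_eq_self (fun y : ℝ => Real.exp (-(W ^ 2 / 2) * y ^ 2)) volume z.im
    rw [h9, integral_gaussian]
    rw [show Real.pi / (W ^ 2 / 2) = (2 * Real.pi) * (1 / W) ^ 2 by field_simp,
      Real.sqrt_mul (show (0 : ℝ) ≤ 2 * Real.pi by positivity) ((1 / W) ^ 2), Real.sqrt_sq (by positivity)]
    have h10 : Real.sqrt (2 * Real.pi) ≠ 0 := by positivity
    field_simp
  have h4 : W ^ 2 / 2 * z.re ^ 2 ≤ |z.re| / 2 := by
    have e : z.re ^ 2 = |z.re| * |z.re| := by rw [← sq, sq_abs]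
    rw [e]
    have := mul_le_mul_of_nonneg_right hz (abs_nonneg z.re)
    nlinarith
  have hz1 : |z.re| ≤ 1 := by
    have h5 : |z.re| ≤ W ^ 2 * |z.re| := by
      have : 0 ≤ |z.re| := abs_nonneg _
      nlinarith [mul_nonneg (by nlinarith : (0:ℝ) ≤ W ^ 2 - 1) this]
    linarith
  have h6 : Real.exp (|z.re| / 2) ≤ 1 + |z.re| := by
    have h7 := Real.abs_exp_sub_one_sub_id_le (x := |z.re| / 2) (by
      rw [abs_of_nonneg (by positivity)]; linarith)
    have h8 := (abs_le.1 h7).2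
    nlinarith [abs_nonneg z.re]
  calc ‖FI W a b z‖ ≤ ∫ x : ℝ, ‖gz W x z‖ := h1.trans h2
    _ = Real.exp (W ^ 2 / 2 * z.re ^ 2) := h3
    _ ≤ Real.exp (|z.re| / 2) := Real.exp_le_exp.2 h4
    _ ≤ 1 + |z.re| := h6

/-- LE2. The number of zeros with multiplicity in a band. PROOF. Set up as in `chain` (SK/C7C.lean; copy the first half): `EFp_holds ε (T₀ + 2)`, `Z_count`,
`chain_numeric ε D C η 1` with `η = min (h/2) (min (1/2) (δ/8))`, `good_PU` at `t = 0` for the intervals used (`‖PU ... 0‖ ≤ 2 √θ L`; take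
`θ = min (1/100) ((δ/32)²)`). `L = log r`. The zeros with `|w.im - u| ≤ h` in `Z χ T` (`T ∈ [L, L+1]`) and in `Z χ (T₀ + 2)` are the same (`mem_Z`,
`|u| + h ≤ T₀ + 1 ≤ L`).
Upper bound: `band_count` for the window `h`: `∑_{|w.im - u| ≤ h + η} mu ≤ (h + 2η)/π L + 2 ‖PU 0‖ + C₀ + 2 N e^{-W²/2} + 2 N e^{-W²η²/2} ≤ (h/π + δ) L` for large
`L` (`mu_nonneg`).
Lower bound: `trace_lower` for the window `h - η`: `Re ∑_{|w.im - u| ≤ h} mu FI ≥ (h-η)/π L - 2 ‖PU 0‖ - C₀ - N e^{-W²η²/2}`, and the left side is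
`≤ (1 + δ₀) ∑_{|w.im - u| ≤ h} mu` (`FI_norm_le`, `|Re w| ≤ δ₀ = D log L/L → 0`); the sum is `≤ 2 L` by the upper bound (`δ ≤ 1`, `h ≤ 1`), so
`δ₀ ∑ ≤ 2 D log L ≤ (δ/4) L` for large `L`. -/
theorem count_both (ε δ h T₀ : ℝ) (hε : 0 < ε) (hε1 : ε ≤ 1) (hδ : 0 < δ) (hδ1 : δ ≤ 1) (hh : 0 < h) (hh1 : h ≤ 1)
    (hT : 0 < T₀) : ∃ θ : ℝ, 0 < θ ∧ ∀ D : ℝ, 0 < D → ∃ r₀ : ℕ, 3 ≤ r₀ ∧ ∀ (r : ℕ) [NeZero r], r₀ ≤ r →
      ∀ χ ∈ prim r, Good χ ε θ D (T₀ + 2) → ∀ u : ℝ, |u| ≤ T₀ →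
        (h / Real.pi - δ) * Real.log r ≤ NW (Z χ (T₀ + 2)) (mu χ) h u ∧
        NW (Z χ (T₀ + 2)) (mu χ) h u ≤ (h / Real.pi + δ) * Real.log r := by
  obtain ⟨η, hη, hηh, hη1, hηδ⟩ : ∃ η : ℝ, 0 < η ∧ η ≤ h / 2 ∧ η ≤ 1 / 2 ∧ η ≤ δ / 8 :=
    ⟨min (h / 2) (min (1 / 2) (δ / 8)), lt_min (by positivity) (lt_min (by norm_num) (by positivity)),
      min_le_left _ _, (min_le_right _ _).trans (min_le_left _ _), (min_le_right _ _).trans (min_le_right _ _)⟩
  set θ : ℝ := (δ / 32) ^ 2 with hθdef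
  have hθ : 0 < θ := by positivity
  refine ⟨θ, hθ, fun D hD => ?_⟩
  obtain ⟨C₀, hC₀, r₁, hr₁, hEF⟩ := EFp_holds ε (T₀ + 2) hε hε1 (by linarith)
  obtain ⟨C, hC, r₂, hr₂, hZ⟩ := Z_count
  obtain ⟨L₁, hL₁, hn₁⟩ := chain_numeric ε D C η 1 hε hε1 hD (by linarith) hη one_pos
  have hlogL : ∀ᶠ L : ℝ in Filter.atTop, Real.log L ≤ (δ / (16 * (D + 1))) * L := by
    have h := (Real.isLittleO_log_id_atTop).def (show 0 < δ / (16 * (D + 1)) by positivity)
    filter_upwards [h, Filter.eventually_ge_atTop (1 : ℝ)] with L hL hL1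
    rw [Real.norm_of_nonneg (Real.log_nonneg hL1)] at hL
    simpa [abs_of_nonneg (by linarith : (0:ℝ) ≤ L)] using hL
  obtain ⟨L₂, hL₂⟩ := Filter.eventually_atTop.1 hlogL
  set M : ℝ := max (max L₁ L₂) (max (max 4 (T₀ + 2)) (16 * (C₀ + 8) / δ)) with hM
  refine ⟨max (max r₁ r₂) (max 3 ⌈Real.exp M⌉₊), ?_, ?_⟩
  · exact le_trans (le_max_left _ _) (le_max_right _ _)
  intro r _ hr χ hχ hG u hu
  have hrr₁ : r₁ ≤ r := le_trans (le_trans (le_max_left _ _) (le_max_left _ _)) hr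
  have hrr₂ : r₂ ≤ r := le_trans (le_trans (le_max_right _ _) (le_max_left _ _)) hr
  have hr3 : 3 ≤ r := le_trans (le_trans (le_max_left _ _) (le_max_right _ _)) hr
  have hrM : ⌈Real.exp M⌉₊ ≤ r := le_trans (le_trans (le_max_right _ _) (le_max_right _ _)) hr
  have hrM' : Real.exp M ≤ (r : ℝ) := le_trans (Nat.le_ceil _) (by exact_mod_cast hrM)
  obtain ⟨T, hT1, hT2, hEFT⟩ := hEF r hrr₁ χ hχ
  set L : ℝ := Real.log r with hL
  have hML : M ≤ L := by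
    rw [hL, Real.le_log_iff_exp_le (by positivity)]
    exact hrM'
  have hLL₁ : L₁ ≤ L := le_trans (le_trans (le_max_left _ _) (le_max_left _ _)) hML
  have hLL₂ : L₂ ≤ L := le_trans (le_trans (le_max_right _ _) (le_max_left _ _)) hML
  have hL4 : 4 ≤ L := le_trans (le_trans (le_trans (le_max_left _ _) (le_max_left _ _)) (le_max_right _ _)) hML
  have hLT : T₀ + 2 ≤ L := le_trans (le_trans (le_trans (le_max_right _ _) (le_max_left _ _)) (le_max_right _ _)) hML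
  have hLC : 16 * (C₀ + 8) / δ ≤ L := le_trans (le_trans (le_max_right _ _) (le_max_right _ _)) hML
  have hCδ : 16 * (C₀ + 8) ≤ δ * L := by
    rw [div_le_iff₀ hδ] at hLC
    linarith
  have hL0 : 0 < L := by linarith
  have hL1 : 1 ≤ L := by linarith
  obtain ⟨hW1, hWδ, hs1, hs2, -⟩ := hn₁ L hLL₁
  have hlL := hL₂ L hLL₂
  set W : ℝ := L ^ (1 / 2 - ε / 4 : ℝ) with hW
  set δ₀ : ℝ := D * Real.log L / L with hδ₀
  have hlog0 : 0 ≤ Real.log L := Real.log_nonneg hL1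
  have hδ₀0 : 0 ≤ δ₀ := by positivity
  have hδ1' : ∀ w ∈ Z χ T, |w.re| ≤ δ₀ := by
    intro w hw
    have hw' := (mem_Z r (by omega) χ hχ T w).1 hw
    exact hG.zf w hw'.1 (by linarith [hw'.2])
  have hN : ∑ w ∈ Z χ T, mu χ w ≤ C * L ^ 2 := by
    refine le_trans ?_ (hZ r hrr₂ χ hχ)
    refine Finset.sum_le_sum_of_subset_of_nonneg ?_ (fun w _ _ => mu_nonneg r χ w)
    intro w hw
    rw [mem_Z r (by omega) χ hχ] at hw ⊢
    exact ⟨hw.1, by linarith [hw.2]⟩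
  have hu' := abs_le.mp hu
  have hW2 : W ≤ W ^ 2 := by nlinarith
  have hWδ1 : W * δ₀ ≤ 1 := (mul_le_mul_of_nonneg_right hW2 hδ₀0).trans hWδ
  -- small exponentials
  set e : ℝ := Real.exp (-(W ^ 2 * η ^ 2 / 2)) with he
  have heN : C * L ^ 2 * e ≤ 1 := by
    have h1 : e ≤ Real.exp (-(W ^ 2 * η ^ 2 / 2) + D * Real.log L / L * L ^ (2 - ε)) := by
      apply Real.exp_le_exp.mpr
      have : 0 ≤ D * Real.log L / L * L ^ (2 - ε) := by positivity
      linarith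
    have h2 : C * L ^ 2 * e ≤ L * (C * L ^ 2) *
        Real.exp (-(W ^ 2 * η ^ 2 / 2) + D * Real.log L / L * L ^ (2 - ε)) := by
      have h3 : C * L ^ 2 ≤ L * (C * L ^ 2) := by
        have : 0 ≤ C * L ^ 2 := by positivity
        nlinarith
      exact mul_le_mul h3 h1 (Real.exp_pos _).le (by positivity)
    exact h2.trans hs1
  -- the prime sums
  have hpu : ∀ a b : ℝ, a ≤ b → -(T₀ + 2) ≤ a → b ≤ T₀ + 2 → b - a ≤ 4 → ‖PU χ W a b 0‖ ≤ δ / 16 * L := by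
    intro a b hab ha hb hb4
    obtain ⟨g1, -⟩ := good_PU r hr3 χ ε θ D (T₀ + 2) a b hε hε1 hG hθ.le hab ha hb
    rw [← pow_le_pow_iff_left₀ (norm_nonneg _) (by positivity) two_ne_zero]
    refine g1.trans ?_
    have hθL : 0 ≤ θ * L ^ 2 := by positivity
    calc (b - a) * (θ * L ^ 2) ≤ 4 * (θ * L ^ 2) := mul_le_mul_of_nonneg_right hb4 hθL
      _ = (δ / 16 * L) ^ 2 := by rw [hθdef]; ring
  have hp1 := hpu (u - h - 2 * η) (u + h + 2 * η) (by linarith) (by linarith) (by linarith) (by linarith)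
  have hp2 := hpu (u - (h - η)) (u + (h - η)) (by linarith) (by linarith) (by linarith) (by linarith)
  have hmu : ∀ w, 0 ≤ mu χ w := fun w => mu_nonneg r χ w
  have hY0 : 0 ≤ L ^ (2 - ε) := by positivity
  -- the two finsets agree
  have hfil : (Z χ (T₀ + 2)).filter (fun w => |w.im - u| ≤ h) = (Z χ T).filter (fun w => |w.im - u| ≤ h) := by
    ext w
    rw [Finset.mem_filter, Finset.mem_filter, mem_Z r (by omega) χ hχ, mem_Z r (by omega) χ hχ]
    constructor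
    · rintro ⟨⟨h1, h2⟩, h3⟩
      exact ⟨⟨h1, by linarith⟩, h3⟩
    · rintro ⟨⟨h1, h2⟩, h3⟩
      refine ⟨⟨h1, ?_⟩, h3⟩
      have h4 := abs_le.1 h3
      rw [abs_le]
      constructor <;> linarith
  have hpi := Real.pi_gt_three
  -- upper bound
  have hbc := band_count r χ T W C₀ (L ^ (2 - ε)) (T₀ + 2) u h η δ₀ (C * L ^ 2) hW1 hY0 hh.le hη.le hδ1' hWδ hN hEFT
    (by linarith [abs_nonneg u])
  rw [← hL, ← he] at hbc
  have hsub : NW (Z χ (T₀ + 2)) (mu χ) h u ≤ ∑ w ∈ (Z χ T).filter (fun w => |w.im - u| ≤ h + η), mu χ w := by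
    unfold NW
    rw [hfil]
    refine Finset.sum_le_sum_of_subset_of_nonneg ?_ fun w _ _ => hmu w
    intro w hw
    rw [Finset.mem_filter] at hw ⊢
    exact ⟨hw.1, by linarith [hw.2]⟩
  have hup : NW (Z χ (T₀ + 2)) (mu χ) h u ≤ (h / Real.pi + δ) * L := by
    have h1 : (h + 2 * η) / Real.pi ≤ h / Real.pi + δ / 8 := by
      rw [add_div]
      have : 2 * η / Real.pi ≤ η := by
        rw [div_le_iff₀ (by linarith)]
        nlinarith
      linarith
    have h2 := mul_le_mul_of_nonneg_right h1 hL0.le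
    nlinarith
  refine ⟨?_, hup⟩
  -- lower bound
  have htl := trace_lower r χ T W C₀ (L ^ (2 - ε)) (T₀ + 2) u (h - η) η δ₀ (C * L ^ 2) hW1 hY0 (by linarith) hη.le hδ1'
    hWδ1 hN hEFT (by linarith [abs_nonneg u])
  rw [← hL, ← he] at htl
  have hhη : h - η + η = h := by ring
  rw [hhη] at htl
  have hle : (∑ w ∈ (Z χ T).filter (fun w => |w.im - u| ≤ h), (mu χ w : ℂ) * FI W (u - (h - η)) (u + (h - η)) w).re ≤
      (1 + δ₀) * NW (Z χ (T₀ + 2)) (mu χ) h u := by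
    unfold NW
    rw [hfil, Complex.re_sum, Finset.mul_sum]
    refine Finset.sum_le_sum fun w hw => ?_
    rw [Finset.mem_filter] at hw
    have hw1 := hδ1' w hw.1
    have hwz : W ^ 2 * |w.re| ≤ 1 := (mul_le_mul_of_nonneg_left hw1 (by positivity)).trans hWδ
    have hFI := FI_norm_le W (u - (h - η)) (u + (h - η)) hW1 (by linarith) w hwz
    have hre := (Complex.re_le_norm (FI W (u - (h - η)) (u + (h - η)) w)).trans hFI
    rw [Complex.re_ofReal_mul]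
    calc mu χ w * (FI W (u - (h - η)) (u + (h - η)) w).re ≤ mu χ w * (1 + δ₀) :=
          mul_le_mul_of_nonneg_left (hre.trans (by linarith)) (hmu w)
      _ = _ := by ring
  have hNW2 : NW (Z χ (T₀ + 2)) (mu χ) h u ≤ 2 * L := by
    refine hup.trans ?_
    have : h / Real.pi ≤ 1 := by
      rw [div_le_one (by linarith)]
      linarith
    nlinarith
  have hδN : δ₀ * NW (Z χ (T₀ + 2)) (mu χ) h u ≤ δ / 8 * L := by
    calc δ₀ * NW (Z χ (T₀ + 2)) (mu χ) h u ≤ δ₀ * (2 * L) := mul_le_mul_of_nonneg_left hNW2 hδ₀0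
      _ = 2 * D * Real.log L := by
          rw [hδ₀]
          field_simp
      _ ≤ 2 * D * (δ / (16 * (D + 1)) * L) := mul_le_mul_of_nonneg_left hlL (by positivity)
      _ = (D / (D + 1)) * (δ / 8 * L) := by
          field_simp
          ring
      _ ≤ 1 * (δ / 8 * L) := by
          refine mul_le_mul_of_nonneg_right ?_ (by positivity)
          rw [div_le_one (by linarith)]
          linarith
      _ = δ / 8 * L := one_mul _
  have h1 : h / Real.pi - δ / 8 ≤ (h - η) / Real.pi := by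
    rw [sub_div]
    have : η / Real.pi ≤ η := by
      rw [div_le_iff₀ (by linarith)]
      nlinarith
    linarith
  have h2 := mul_le_mul_of_nonneg_right h1 hL0.le
  nlinarith

end Pool.Agent.SD
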