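import Pool.Agent.Lib.MP_9cfc0a_nt.Mg.G015
import Pool.Agent.Lib.MP_9cfc0a_nt.Mg.G022
import Pool.Agent.Lib.MP_9cfc0a_nt.Mg.G010

set_option autoImplicit false

/-! Task AA: the excess of the variance. -/

namespace Pool.Agent.SD

open Complex MeasureTheory
open Pool.Agent.SK MP9cfc0a.SK
open Pool.Agent.EM (V)
open Pool.Agent.SO (prim NN)

/-- AA1. PROOF. Substitution `x = e^t` or the primitive `L (log x - (log x)²/(2 log y))` of `(1 - log x/log y) L/x`:
`∫_q^y (1 - log x/log y) (x L)/x² dx = L (log y - L)²/(2 log y)`. -/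
theorem main_term (q : ℕ) (hq : 3 ≤ q) (y : ℝ) (hy : (q : ℝ) ≤ y) :
    IntegrableOn (fun x : ℝ => (1 - Real.log x / Real.log y) * (x * Real.log q / x ^ 2)) (Set.Ioc (q : ℝ) y) ∧
    ∫ x in Set.Ioc (q : ℝ) y, (1 - Real.log x / Real.log y) * (x * Real.log q / x ^ 2) =
      Real.log q * (Real.log y - Real.log q) ^ 2 / (2 * Real.log y) := by
  have hq0 : (3 : ℝ) ≤ q := by exact_mod_cast hq
  have hy0 : (0 : ℝ) < y := by linarith
  have hcont : ContinuousOn (fun x : ℝ => (1 - Real.log x / Real.log y) * (x * Real.log q / x ^ 2))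
      (Set.uIcc (q : ℝ) y) := by
    intro x hx
    rw [Set.uIcc_of_le hy] at hx
    have hx0 : x ≠ 0 := by linarith [hx.1]
    have h1 : ContinuousAt (fun x : ℝ => (1 - Real.log x / Real.log y) * (x * Real.log q / x ^ 2)) x := by
      refine ContinuousAt.mul ?_ ?_
      · exact continuousAt_const.sub ((Real.continuousAt_log hx0).div_const _)
      · exact (continuousAt_id.mul continuousAt_const).div (continuousAt_id.pow 2) (pow_ne_zero 2 hx0)
    exact h1.continuousWithinAt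
  have hint : IntervalIntegrable (fun x : ℝ => (1 - Real.log x / Real.log y) * (x * Real.log q / x ^ 2))
      volume (q : ℝ) y := hcont.intervalIntegrable
  refine ⟨?_, ?_⟩
  · exact (intervalIntegrable_iff_integrableOn_Ioc_of_le hy).1 hint
  · rw [← intervalIntegral.integral_of_le hy]
    have hF : ∀ x ∈ Set.uIcc (q : ℝ) y, HasDerivAt
        (fun x : ℝ => Real.log q * (Real.log x - (Real.log x) ^ 2 / (2 * Real.log y)))
        ((1 - Real.log x / Real.log y) * (x * Real.log q / x ^ 2)) x := by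
      intro x hx
      rw [Set.uIcc_of_le hy] at hx
      have hx0 : x ≠ 0 := by linarith [hx.1]
      have h1 := Real.hasDerivAt_log hx0
      have h2 := ((h1.sub ((h1.pow 2).div_const (2 * Real.log y))).const_mul (Real.log q))
      refine h2.congr_deriv ?_
      have hly : Real.log y ≠ 0 := by
        have : 0 < Real.log y := Real.log_pos (by linarith)
        exact this.ne'
      field_simp
      ring
    rw [intervalIntegral.integral_eq_sub_of_hasDerivAt hF hint]
    have hly : Real.log y ≠ 0 := by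
      have : 0 < Real.log y := Real.log_pos (by linarith)
      exact this.ne'
    field_simp
    ring

/-- AA2. The excess. PROOF. `∫_1^y = ∫_1^q + ∫_q^y` (`integrable_weight`, `EM.integrable_V_window`), `V_initial` with `Y = log y`, `main_term`,
and with `L = log q`, `Ly = log y`:
`(1/2)(2 L Ly - L²) - (1/2) L Ly sig - ε L Ly - (L²/2 - L³/(3 Ly) + C L) - L (Ly - L)²/(2 Ly)
   = (L Ly/2) (1 - sig - (1/3)(L/Ly)² - 2 ε) - C L`. -/
theorem excess (C ε : ℝ) (q : ℕ) [NeZero q] (hq : 3 ≤ q) (y σ : ℝ) (hy : (q : ℝ) ≤ y)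
    (h1 : ∫ x in Set.Ioc (1 : ℝ) q, (1 - Real.log x / Real.log y) * (V x q / x ^ 2) ≤
      Real.log q ^ 2 / 2 - Real.log q ^ 3 / (3 * Real.log y) + C * Real.log q)
    (h2 : 1 / 2 * (2 * (Real.log q * Real.log y) - Real.log q ^ 2) - 1 / 2 * (Real.log q * Real.log y) * σ -
          ε * (Real.log q * Real.log y) ≤
          ∫ x in Set.Ioc 1 y, (1 - Real.log x / Real.log y) * (V x q / x ^ 2)) :
    1 / 2 * (Real.log q * Real.log y) * (1 - σ - 1 / 3 * (Real.log q / Real.log y) ^ 2 - 2 * ε) - C * Real.log q ≤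
      ∫ x in Set.Ioc (q : ℝ) y, (1 - Real.log x / Real.log y) * ((V x q - x * Real.log q) / x ^ 2) := by
  have hq0 : (3 : ℝ) ≤ q := by exact_mod_cast hq
  have hq1 : (1 : ℝ) ≤ q := by linarith
  have iV := integrable_weight _ y (EM.integrable_V_window q 1 y le_rfl)
  have hu : Set.Ioc (1 : ℝ) q ∪ Set.Ioc (q : ℝ) y = Set.Ioc 1 y := Set.Ioc_union_Ioc_eq_Ioc hq1 hy
  have i1 : IntegrableOn (fun x => (1 - Real.log x / Real.log y) * (V x q / x ^ 2)) (Set.Ioc (1 : ℝ) q) :=
    iV.mono_set (Set.Ioc_subset_Ioc_right hy)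
  have i2 : IntegrableOn (fun x => (1 - Real.log x / Real.log y) * (V x q / x ^ 2)) (Set.Ioc (q : ℝ) y) :=
    iV.mono_set (Set.Ioc_subset_Ioc_left hq1)
  have hsplit : ∫ x in Set.Ioc 1 y, (1 - Real.log x / Real.log y) * (V x q / x ^ 2)
      = (∫ x in Set.Ioc (1 : ℝ) q, (1 - Real.log x / Real.log y) * (V x q / x ^ 2))
        + ∫ x in Set.Ioc (q : ℝ) y, (1 - Real.log x / Real.log y) * (V x q / x ^ 2) := by
    rw [← hu]
    refine setIntegral_union ?_ measurableSet_Ioc i1 i2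
    rw [Set.disjoint_left]
    intro x hx hx'
    exact absurd hx.2 (not_le.2 hx'.1)
  obtain ⟨m1, m2⟩ := main_term q hq y hy
  have hdiff : ∫ x in Set.Ioc (q : ℝ) y, (1 - Real.log x / Real.log y) * ((V x q - x * Real.log q) / x ^ 2)
      = (∫ x in Set.Ioc (q : ℝ) y, (1 - Real.log x / Real.log y) * (V x q / x ^ 2))
        - ∫ x in Set.Ioc (q : ℝ) y, (1 - Real.log x / Real.log y) * (x * Real.log q / x ^ 2) := by
    rw [← integral_sub i2 m1]
    refine integral_congr_ae (Filter.Eventually.of_forall fun x => ?_)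
    show (1 - Real.log x / Real.log y) * ((V x q - x * Real.log q) / x ^ 2) =
      (1 - Real.log x / Real.log y) * (V x q / x ^ 2)
        - (1 - Real.log x / Real.log y) * (x * Real.log q / x ^ 2)
    rw [sub_div]
    ring
  rw [hdiff, m2]
  have hLy : Real.log y ≠ 0 := by
    have : 0 < Real.log y := Real.log_pos (by linarith)
    exact this.ne'
  have key : 1 / 2 * (Real.log q * Real.log y) * (1 - σ - 1 / 3 * (Real.log q / Real.log y) ^ 2 - 2 * ε) - C * Real.log q
      = (1 / 2 * (2 * (Real.log q * Real.log y) - Real.log q ^ 2) - 1 / 2 * (Real.log q * Real.log y) * σ -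
          ε * (Real.log q * Real.log y)) - (Real.log q ^ 2 / 2 - Real.log q ^ 3 / (3 * Real.log y) + C * Real.log q)
        - Real.log q * (Real.log y - Real.log q) ^ 2 / (2 * Real.log y) := by
    field_simp
    ring
  rw [key]
  linarith

/-- AA3. The theorem. PROOF. `ε' = min ε 1/12`; `var2 ε'`, `V_initial`, `excess` with `ε'`, `C log q ≤ ε' (1/2) (log q)(log y)` for large `q`; `2/3 - ε ≤ sig` is the
case `y = q` (the integral over `Set.Ioc q q` is `0`; `log q ≤ (log q)^(2-ε')`). The proportion: `∑_S gL ≥ (sig - ε') φ L ≥ (2/3 - ε/2) φ L`,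
`∑_S aL ≤ |S| (1+ε') L ≤ φ (1+ε') L`. (The range `log y ≤ (log q)^(2-ε)` is contained in `log y ≤ (log q)^(2-ε')`.) -/
theorem main (ε : ℝ) (hε : 0 < ε) : ∃ T₀ : ℝ, 0 < T₀ ∧ ∀ T : ℝ, T₀ ≤ T → ∃ q₀ : ℕ, 3 ≤ q₀ ∧
    ∀ (q : ℕ) [NeZero q], q₀ ≤ q → (2 / 3 - ε ≤ sig q T ∧ sig q T ≤ 1 + ε) ∧
      (∃ S : Finset (DirichletCharacter ℂ q), (1 - ε) * (q.totient : ℝ) ≤ (S.card : ℝ) ∧
        (∀ χ ∈ S, gL χ T ≤ aL χ T ∧ (1 - ε) * Real.log q ≤ aL χ T ∧ aL χ T ≤ (1 + ε) * Real.log q) ∧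
        (2 / 3 - ε) * ∑ χ ∈ S, aL χ T ≤ ∑ χ ∈ S, gL χ T ∧
        ∀ χ ∈ S, ∀ y : ℝ, (q : ℝ) ≤ y → Real.log y ≤ (Real.log q) ^ (2 - ε) →
          1 / 2 * (2 * (Real.log q * Real.log y) - Real.log q ^ 2) - 1 / 2 * Real.log y * gL χ T -
            ε * (Real.log q * Real.log y) ≤ En χ y) ∧
      ∀ y : ℝ, (q : ℝ) ≤ y → Real.log y ≤ (Real.log q) ^ (2 - ε) →
        (1 / 2 * (2 * (Real.log q * Real.log y) - Real.log q ^ 2) - 1 / 2 * (Real.log q * Real.log y) * sig q T -
          ε * (Real.log q * Real.log y) ≤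
          ∫ x in Set.Ioc 1 y, (1 - Real.log x / Real.log y) * (V x q / x ^ 2)) ∧
        1 / 2 * (Real.log q * Real.log y) * (1 - sig q T - 1 / 3 * (Real.log q / Real.log y) ^ 2 - ε) ≤
          ∫ x in Set.Ioc (q : ℝ) y, (1 - Real.log x / Real.log y) * ((V x q - x * Real.log q) / x ^ 2) := by
  obtain ⟨C, hC, hV⟩ := V_initial
  obtain ⟨e, he0, he1, he2⟩ : ∃ e : ℝ, 0 < e ∧ 6 * e ≤ ε ∧ 6 * e ≤ 1 :=
    ⟨min ε 1 / 6, by positivity, by have := min_le_left ε 1; linarith, by have := min_le_right ε 1; linarith⟩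
  obtain ⟨T₀, hT₀, h⟩ := var2 e he0
  refine ⟨T₀, hT₀, fun T hT => ?_⟩
  obtain ⟨q₀, hq₀, hq⟩ := h T hT
  refine ⟨max q₀ ⌈Real.exp (2 * C / e)⌉₊, le_max_of_le_left hq₀, ?_⟩
  intro q _ hqq
  obtain ⟨hs1, ⟨S, hS1, hS2, hS3, hS4⟩, hs2⟩ := hq q ((le_max_left _ _).trans hqq)
  have hq3 : 3 ≤ q := hq₀.trans ((le_max_left _ _).trans hqq)
  have hq3r : (3 : ℝ) ≤ q := by exact_mod_cast hq3
  have hL1 : 1 ≤ Real.log q := by
    rw [Real.le_log_iff_exp_le (by linarith)]
    exact Real.exp_one_lt_d9.le.trans (by linarith)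
  have hLC : 2 * C / e ≤ Real.log q := by
    rw [Real.le_log_iff_exp_le (by linarith)]
    have h1 : Real.exp (2 * C / e) ≤ (⌈Real.exp (2 * C / e)⌉₊ : ℝ) := Nat.le_ceil _
    have h2 : ((⌈Real.exp (2 * C / e)⌉₊ : ℕ) : ℝ) ≤ (q : ℝ) := by
      exact_mod_cast (le_max_right _ _).trans hqq
    linarith
  have hLC' : 2 * C ≤ Real.log q * e := (div_le_iff₀ he0).1 hLC
  have hrange : ∀ y : ℝ, Real.log y ≤ (Real.log q) ^ (2 - ε) → Real.log y ≤ (Real.log q) ^ (2 - e) := by
    intro y hy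
    exact hy.trans (Real.rpow_le_rpow_of_exponent_le hL1 (by linarith))
  have hmain : ∀ y : ℝ, (q : ℝ) ≤ y → Real.log y ≤ (Real.log q) ^ (2 - e) →
      1 / 2 * (Real.log q * Real.log y) * (1 - sig q T - 1 / 3 * (Real.log q / Real.log y) ^ 2 - 3 * e) ≤
          ∫ x in Set.Ioc (q : ℝ) y, (1 - Real.log x / Real.log y) * ((V x q - x * Real.log q) / x ^ 2) := by
    intro y hy1 hy2
    have hLy : Real.log q ≤ Real.log y := Real.log_le_log (by linarith) hy1
    have h1 := excess C e q hq3 y (sig q T) hy1 (hV q hq3 (Real.log y) hLy) (hs2 y hy1 hy2)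
    refine le_trans ?_ h1
    have h2 : C * Real.log q ≤ 1 / 2 * (Real.log q * Real.log y) * e := by
      have h3 : 2 * C ≤ Real.log y * e := hLC'.trans (mul_le_mul_of_nonneg_right hLy he0.le)
      have h4 : 0 ≤ Real.log q := by linarith
      nlinarith
    nlinarith
  have hsiglow : 2 / 3 - 3 * e ≤ sig q T := by
    have h1 := hmain q le_rfl (by
      have h2 : (Real.log q) ^ (1 : ℝ) ≤ (Real.log q) ^ (2 - e) :=
        Real.rpow_le_rpow_of_exponent_le hL1 (by linarith)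
      rwa [Real.rpow_one] at h2)
    rw [Set.Ioc_self, setIntegral_empty, div_self (by linarith : Real.log q ≠ 0)] at h1
    by_contra hcon
    rw [not_le] at hcon
    have h2 : 0 < Real.log q * Real.log q := by nlinarith
    nlinarith
  have hP : ∀ y : ℝ, (q : ℝ) ≤ y → 0 ≤ Real.log q * Real.log y := by
    intro y hy1
    have hLy : Real.log q ≤ Real.log y := Real.log_le_log (by linarith) hy1
    nlinarith
  refine ⟨⟨by linarith, by linarith⟩, ⟨S, ?_, ?_, ?_, ?_⟩, ?_⟩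
  · refine le_trans ?_ hS1
    refine mul_le_mul_of_nonneg_right (by linarith) (Nat.cast_nonneg _)
  · intro χ hχ
    obtain ⟨h1, h2, h3⟩ := hS2 χ hχ
    refine ⟨h1, ?_, ?_⟩
    · refine le_trans ?_ h2
      exact mul_le_mul_of_nonneg_right (by linarith) (by linarith)
    · refine h3.trans ?_
      exact mul_le_mul_of_nonneg_right (by linarith) (by linarith)
  · have haL : ∀ χ ∈ S, 0 ≤ aL χ T := by
      intro χ hχ
      obtain ⟨h1, h2, h3⟩ := hS2 χ hχ
      exact (gL_nonneg q χ T).trans h1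
    have hsum0 : 0 ≤ ∑ χ ∈ S, aL χ T := Finset.sum_nonneg haL
    have hcard : (S.card : ℝ) ≤ (q.totient : ℝ) := by
      rw [← DirichletCharacter.card_eq_totient_of_hasEnoughRootsOfUnity ℂ q, Nat.card_eq_fintype_card]
      exact_mod_cast Finset.card_le_univ S
    have hsum1 : ∑ χ ∈ S, aL χ T ≤ (1 + e) * ((q.totient : ℝ) * Real.log q) := by
      calc ∑ χ ∈ S, aL χ T ≤ ∑ χ ∈ S, (1 + e) * Real.log q := Finset.sum_le_sum fun χ hχ => (hS2 χ hχ).2.2
        _ = (S.card : ℝ) * ((1 + e) * Real.log q) := by rw [Finset.sum_const, nsmul_eq_mul]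
        _ ≤ (q.totient : ℝ) * ((1 + e) * Real.log q) :=
            mul_le_mul_of_nonneg_right hcard (by nlinarith)
        _ = _ := by ring
    have hφL : 0 ≤ (q.totient : ℝ) * Real.log q := mul_nonneg (Nat.cast_nonneg _) (by linarith)
    have hg : (2 / 3 - 4 * e) * ((q.totient : ℝ) * Real.log q) ≤ ∑ χ ∈ S, gL χ T := by
      refine le_trans ?_ hS3
      exact mul_le_mul_of_nonneg_right (by linarith) hφL
    rcases le_total (2 / 3 - ε) 0 with hneg | hpos
    · have h1 : (2 / 3 - ε) * ∑ χ ∈ S, aL χ T ≤ 0 := mul_nonpos_of_nonpos_of_nonneg hneg hsum0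
      have h2 : 0 ≤ ∑ χ ∈ S, gL χ T := Finset.sum_nonneg fun χ _ => gL_nonneg q χ T
      linarith
    · calc (2 / 3 - ε) * ∑ χ ∈ S, aL χ T
          ≤ (2 / 3 - ε) * ((1 + e) * ((q.totient : ℝ) * Real.log q)) :=
            mul_le_mul_of_nonneg_left hsum1 hpos
        _ = ((2 / 3 - ε) * (1 + e)) * ((q.totient : ℝ) * Real.log q) := by ring
        _ ≤ (2 / 3 - 4 * e) * ((q.totient : ℝ) * Real.log q) := by
            refine mul_le_mul_of_nonneg_right ?_ hφL
            nlinarith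
        _ ≤ _ := hg
  · intro χ hχ y hy1 hy2
    refine le_trans ?_ (hS4 χ hχ y hy1 (hrange y hy2))
    have h1 := hP y hy1
    nlinarith
  · intro y hy1 hy2
    have h1 := hP y hy1
    refine ⟨le_trans ?_ (hs2 y hy1 (hrange y hy2)), le_trans ?_ (hmain y hy1 (hrange y hy2))⟩
    · nlinarith
    · refine mul_le_mul_of_nonneg_left (by linarith) (by linarith)

end Pool.Agent.SD
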